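import Mathlib

/-!
Definitions for MP_a068eb_an: proper rational maps between complex unit balls, jets at the origin,
the jet determination number and the maximal degree.
-/

namespace Helper38.Ball

open Metric

/-- Complex Euclidean space `ℂ^n` with its Hermitian norm. -/
abbrev CSp (n : ℕ) := EuclideanSpace ℂ (Fin n)

/-- `f` is a proper holomorphic map from the open unit ball of `ℂ^n` to the open unit ball of
`ℂ^N`: it is analytic on the ball, maps the ball into the ball, and the preimage (in the ball) of
every compact subset of the target ball is compact. -/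
structure IsProper {n N : ℕ} (f : CSp n → CSp N) : Prop where
  holo : AnalyticOnNhd ℂ f (ball 0 1)
  maps : ∀ z ∈ ball (0 : CSp n) 1, f z ∈ ball (0 : CSp N) 1
  proper : ∀ K ⊆ ball (0 : CSp N) 1, IsCompact K → IsCompact {z ∈ ball (0 : CSp n) 1 | f z ∈ K}

/-- `f` is rational on the ball: every component is a quotient of two polynomials. -/
def IsRational {n N : ℕ} (f : CSp n → CSp N) : Prop :=
  ∀ j : Fin N, ∃ p q : MvPolynomial (Fin n) ℂ, q ≠ 0 ∧
    ∀ z ∈ ball (0 : CSp n) 1,
      MvPolynomial.eval (fun i => z i) q * f z j = MvPolynomial.eval (fun i => z i) p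

/-- `f` is a rational map of degree at most `d`: it can be written on the ball as `p / q` with
polynomials `p_1, ..., p_N, q` of degree at most `d`, `q ≠ 0`. -/
def DegreeLE {n N : ℕ} (f : CSp n → CSp N) (d : ℕ) : Prop :=
  ∃ (p : Fin N → MvPolynomial (Fin n) ℂ) (q : MvPolynomial (Fin n) ℂ), q ≠ 0 ∧
    q.totalDegree ≤ d ∧ (∀ j, (p j).totalDegree ≤ d) ∧
    ∀ z ∈ ball (0 : CSp n) 1, ∀ j,
      MvPolynomial.eval (fun i => z i) q * f z j = MvPolynomial.eval (fun i => z i) (p j)

/-- Equality of the `k`-jets at the origin: all derivatives of order at most `k` agree. -/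
def SameJet {n N : ℕ} (k : ℕ) (f g : CSp n → CSp N) : Prop :=
  ∀ m ≤ k, iteratedFDeriv ℂ m f 0 = iteratedFDeriv ℂ m g 0

/-- Every proper rational map between the balls is determined by its `k`-jet at the origin. -/
def Determined (n N k : ℕ) : Prop :=
  ∀ f g : CSp n → CSp N, IsProper f → IsRational f → IsProper g → IsRational g → SameJet k f g →
    Set.EqOn g f (ball 0 1)

/-- The jet determination number `k(n,N)` (`⊤` if there is no such `k`). -/
noncomputable def jetNumber (n N : ℕ) : ℕ∞ := ⨅ (k : ℕ) (_ : Determined n N k), (k : ℕ∞)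

/-- The degree of a rational map (`⊤` if it is not rational). -/
noncomputable def degree {n N : ℕ} (f : CSp n → CSp N) : ℕ∞ := ⨅ (d : ℕ) (_ : DegreeLE f d), (d : ℕ∞)

/-- The maximal degree `D(n,N)` of a proper rational map between the balls. -/
noncomputable def maxDegree (n N : ℕ) : ℕ∞ :=
  ⨆ (f : CSp n → CSp N) (_ : IsProper f ∧ IsRational f), degree f

end Helper38.Ball
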