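import Pool.Agent.Helper38.BallUpper

/-!
Lower bounds: explicit monomial maps.
-/

namespace Helper38.Ball

open Metric Filter Topology

variable {n N : ℕ}

lemma iter_pow_zero (i : Fin n) : ∀ d m : ℕ, m < d →
    iteratedFDeriv ℂ m (fun z : CSp n => (z i) ^ d) 0 = 0 := by
  intro d
  induction d with
  | zero => intro m hm; omega
  | succ d ih =>
    intro m hm
    have hcd1 : ContDiff ℂ ⊤ fun z : CSp n => z i := by fun_prop
    have hcd2 : ContDiff ℂ ⊤ fun z : CSp n => (z i) ^ d := by fun_prop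
    have h := norm_iteratedFDeriv_mul_le (N := ⊤) hcd1 hcd2 (0 : CSp n) (n := m) le_top
    have hfe : (fun z : CSp n => (z i) ^ (d + 1)) = fun z => z i * (z i) ^ d := by
      funext z; ring
    rw [hfe]
    rw [← norm_le_zero_iff]
    refine h.trans (le_of_eq ?_)
    refine Finset.sum_eq_zero fun l hl => ?_
    rcases Nat.eq_zero_or_pos l with hl0 | hl0
    · subst hl0
      simp
    · have hlm := Finset.mem_range.1 hl
      have hml : m - l < d := by omega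
      rw [ih (m - l) hml]
      simp

/-- The polynomial map with components `ψ j`. -/
noncomputable def pm (ψ : Fin N → MvPolynomial (Fin n) ℂ) (z : CSp n) : CSp N :=
  WithLp.toLp 2 fun j => ev (ψ j) z

@[simp] lemma pm_apply (ψ : Fin N → MvPolynomial (Fin n) ℂ) (z : CSp n) (j : Fin N) :
    pm ψ z j = ev (ψ j) z := rfl

lemma pm_norm_sq (ψ : Fin N → MvPolynomial (Fin n) ℂ) (z : CSp n) :
    ‖pm ψ z‖ ^ 2 = ∑ j, ‖ev (ψ j) z‖ ^ 2 := by
  rw [EuclideanSpace.norm_sq_eq]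
  rfl

lemma ev_contDiff (p : MvPolynomial (Fin n) ℂ) : ContDiff ℂ ⊤ (ev p) := by
  induction p using MvPolynomial.induction_on with
  | C a =>
    have : ev (MvPolynomial.C a : MvPolynomial (Fin n) ℂ) = fun _ => a := by
      funext z; simp [ev]
    rw [this]; exact contDiff_const
  | add p q hp hq =>
    have : ev (p + q) = fun z => ev p z + ev q z := by funext z; simp [ev]
    rw [this]; exact hp.add hq
  | mul_X p i hp =>
    have : ev (p * MvPolynomial.X i) = fun z => ev p z * z i := by funext z; simp [ev]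
    rw [this]; exact hp.mul (by fun_prop)

lemma pm_contDiff (ψ : Fin N → MvPolynomial (Fin n) ℂ) : ContDiff ℂ ⊤ (pm ψ) := by
  rw [contDiff_euclidean]
  exact fun j => ev_contDiff (ψ j)

lemma pm_isProper {ψ : Fin N → MvPolynomial (Fin n) ℂ}
    (h1 : ∀ z : CSp n, ‖z‖ = 1 → ∑ j, ‖ev (ψ j) z‖ ^ 2 = 1)
    (h2 : ∀ z : CSp n, ‖z‖ < 1 → ∑ j, ‖ev (ψ j) z‖ ^ 2 < 1) : IsProper (pm ψ) := by
  have hlt : ∀ z : CSp n, ‖z‖ < 1 → ‖pm ψ z‖ < 1 := fun z hz => by
    have := h2 z hz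
    rw [← pm_norm_sq] at this
    nlinarith [norm_nonneg (pm ψ z)]
  have heq : ∀ z : CSp n, ‖z‖ = 1 → ‖pm ψ z‖ = 1 := fun z hz => by
    have := h1 z hz
    rw [← pm_norm_sq] at this
    nlinarith [norm_nonneg (pm ψ z)]
  refine ⟨fun z _ => ?_, fun z hz => ?_, fun K hK hKc => ?_⟩
  · exact (pm_contDiff ψ).contDiffAt.analyticAt
  · simpa using hlt z (by simpa using hz)
  · have hset : {z ∈ ball (0 : CSp n) 1 | pm ψ z ∈ K} = closedBall 0 1 ∩ (pm ψ) ⁻¹' K := by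
      ext z
      constructor
      · rintro ⟨hz, hzK⟩
        exact ⟨ball_subset_closedBall hz, hzK⟩
      · rintro ⟨hz, hzK⟩
        refine ⟨?_, hzK⟩
        have hz1 : ‖z‖ ≤ 1 := by simpa using hz
        rcases hz1.lt_or_eq with h | h
        · simpa using h
        · exfalso
          have h3 := hK hzK
          rw [mem_ball_zero_iff, heq z h] at h3
          exact lt_irrefl _ h3
    rw [hset]
    exact (isCompact_closedBall _ _).inter_right (hKc.isClosed.preimage (pm_contDiff ψ).continuous)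

lemma pm_isRational (ψ : Fin N → MvPolynomial (Fin n) ℂ) : IsRational (pm ψ) := fun j =>
  ⟨ψ j, 1, one_ne_zero, fun z _ => by simp [ev]⟩

/-- If a proper polynomial map has a component `z_i ^ d` then jets of order less than `d` do not
suffice. -/
theorem lower_of_component {ψ : Fin N → MvPolynomial (Fin n) ℂ}
    (h1 : ∀ z : CSp n, ‖z‖ = 1 → ∑ j, ‖ev (ψ j) z‖ ^ 2 = 1)
    (h2 : ∀ z : CSp n, ‖z‖ < 1 → ∑ j, ‖ev (ψ j) z‖ ^ 2 < 1)
    {j0 : Fin N} {i : Fin n} {d : ℕ} (hψ : ψ j0 = MvPolynomial.X i ^ d) {k : ℕ}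
    (hk : Determined n N k) : d ≤ k := by
  classical
  by_contra hcon
  push Not at hcon
  set ψ' : Fin N → MvPolynomial (Fin n) ℂ := Function.update ψ j0 (-ψ j0) with hψ'
  have hnorm : ∀ (z : CSp n) (j : Fin N), ‖ev (ψ' j) z‖ = ‖ev (ψ j) z‖ := by
    intro z j
    by_cases hj : j = j0
    · subst hj
      simp [hψ', ev]
    · simp [hψ', Function.update_of_ne hj]
  have hp := pm_isProper h1 h2
  have hp' : IsProper (pm ψ') := pm_isProper
    (fun z hz => by simp_rw [hnorm]; exact h1 z hz) (fun z hz => by simp_rw [hnorm]; exact h2 z hz)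
  have hjet : SameJet k (pm ψ) (pm ψ') := by
    intro m hm
    set v : CSp N := EuclideanSpace.single j0 (2 : ℂ) with hv
    set L : ℂ →L[ℂ] CSp N := (ContinuousLinearMap.id ℂ ℂ).smulRight v with hL
    have hcd : ContDiff ℂ ⊤ fun z : CSp n => (z i) ^ d := by fun_prop
    have hfe : pm ψ = fun z => pm ψ' z + (L ∘ fun z : CSp n => (z i) ^ d) z := by
      funext z
      apply PiLp.ext
      intro j
      by_cases hj : j = j0
      · subst hj
        simp [hψ', ev, hψ, hL, hv]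
        ring
      · simp [hψ', hL, hv, hj]
    have hcL : ContDiff ℂ ⊤ (L ∘ fun z : CSp n => (z i) ^ d) := L.contDiff.comp hcd
    have h3 : iteratedFDeriv ℂ m (L ∘ fun z : CSp n => (z i) ^ d) 0 = 0 := by
      rw [L.iteratedFDeriv_comp_left (hcd.contDiffAt (x := 0)) (i := m) le_top,
        iter_pow_zero i d m (lt_of_le_of_lt hm hcon)]
      ext y
      simp
    have h4 := iteratedFDeriv_add_apply (i := m) (x := (0 : CSp n))
      (f := pm ψ') (g := L ∘ fun z : CSp n => (z i) ^ d)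
      ((pm_contDiff ψ').contDiffAt.of_le le_top) (hcL.contDiffAt.of_le le_top)
    rw [h3, add_zero] at h4
    rw [hfe]
    exact h4
  have heq := hk (pm ψ) (pm ψ') hp (pm_isRational _) hp' (pm_isRational _) hjet
  set w : CSp n := EuclideanSpace.single i (1 / 2 : ℂ) with hw
  have hwb : w ∈ ball (0 : CSp n) 1 := by
    rw [mem_ball_zero_iff, hw, PiLp.norm_single]
    norm_num
  have h5 := congrArg (fun v : CSp N => v j0) (heq hwb)
  simp [hψ', ev, hψ, hw] at h5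
  have h6 : ((2 : ℂ) ^ d)⁻¹ ≠ 0 := inv_ne_zero (pow_ne_zero _ two_ne_zero)
  apply h6
  linear_combination (-1 / 2 : ℂ) * h5

/-- Reindexing: a family of polynomials indexed by a finite type embedded in `Fin N`. -/
theorem lower_of_family {ι : Type*} [Fintype ι] (hι : Fintype.card ι ≤ N)
    (φ : ι → MvPolynomial (Fin n) ℂ)
    (h1 : ∀ z : CSp n, ‖z‖ = 1 → ∑ j, ‖ev (φ j) z‖ ^ 2 = 1)
    (h2 : ∀ z : CSp n, ‖z‖ < 1 → ∑ j, ‖ev (φ j) z‖ ^ 2 < 1)
    {j0 : ι} {i : Fin n} {d : ℕ} (hφ : φ j0 = MvPolynomial.X i ^ d) {k : ℕ}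
    (hk : Determined n N k) : d ≤ k := by
  classical
  obtain ⟨e⟩ : Nonempty (ι ↪ Fin N) := by
    rw [Function.Embedding.nonempty_iff_card_le]
    simpa using hι
  set ψ : Fin N → MvPolynomial (Fin n) ℂ :=
    fun j => if h : ∃ i, e i = j then φ h.choose else 0 with hψ
  have hψe : ∀ a, ψ (e a) = φ a := by
    intro a
    have h : ∃ i, e i = e a := ⟨a, rfl⟩
    simp only [hψ, dif_pos h]
    congr 1
    exact e.injective h.choose_spec
  have hsum : ∀ z : CSp n, ∑ j, ‖ev (ψ j) z‖ ^ 2 = ∑ a, ‖ev (φ a) z‖ ^ 2 := by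
    intro z
    symm
    apply Fintype.sum_of_injective e e.injective
    · intro j hj
      have h : ¬ ∃ i, e i = j := fun ⟨a, ha⟩ => hj ⟨a, ha⟩
      simp [hψ, dif_neg h, ev]
    · intro a
      rw [hψe]
  exact lower_of_component (ψ := ψ) (fun z hz => by rw [hsum, h1 z hz])
    (fun z hz => by rw [hsum]; exact h2 z hz) (j0 := e j0) (by rw [hψe, hφ]) hk

/-! ### Whitney type maps -/

/-- components of the Whitney map of degree `d` on `ℂ^(m+1)` -/
noncomputable def whitney (m d : ℕ) : (Fin d × Fin m) ⊕ Unit → MvPolynomial (Fin (m + 1)) ℂ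
  | Sum.inl (s, i) => MvPolynomial.X i.castSucc * MvPolynomial.X (Fin.last m) ^ (s : ℕ)
  | Sum.inr _ => MvPolynomial.X (Fin.last m) ^ d

lemma whitney_sum (m d : ℕ) (z : CSp (m + 1)) :
    ∑ a, ‖ev (whitney m d a) z‖ ^ 2
      = 1 - (1 - ‖z‖ ^ 2) * ∑ s ∈ Finset.range d, (‖z (Fin.last m)‖ ^ 2) ^ s := by
  rw [Fintype.sum_sum_type, Fintype.sum_prod_type]
  have h1 : ∀ s : Fin d, ∑ i : Fin m, ‖ev (whitney m d (Sum.inl (s, i))) z‖ ^ 2
      = (∑ i : Fin m, ‖z i.castSucc‖ ^ 2) * (‖z (Fin.last m)‖ ^ 2) ^ (s : ℕ) := by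
    intro s
    rw [Finset.sum_mul]
    refine Finset.sum_congr rfl fun i _ => ?_
    simp [whitney, ev]
    ring
  simp_rw [h1]
  rw [← Finset.mul_sum, Fin.sum_univ_eq_sum_range (fun s => (‖z (Fin.last m)‖ ^ 2) ^ s) d]
  have h2 : ∑ x : Unit, ‖ev (whitney m d (Sum.inr x)) z‖ ^ 2 = (‖z (Fin.last m)‖ ^ 2) ^ d := by
    simp [whitney, ev]
    ring
  rw [h2]
  have h3 : ‖z‖ ^ 2 = (∑ i : Fin m, ‖z i.castSucc‖ ^ 2) + ‖z (Fin.last m)‖ ^ 2 := by
    rw [EuclideanSpace.norm_sq_eq, Fin.sum_univ_castSucc]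
  rw [h3]
  set x := ∑ i : Fin m, ‖z i.castSucc‖ ^ 2
  set y := ‖z (Fin.last m)‖ ^ 2
  have h4 := geom_sum_mul_neg y d
  linear_combination h4

theorem lower_whitney {m d : ℕ} (hd : 1 ≤ d) (hN : d * m + 1 ≤ N) {k : ℕ}
    (hk : Determined (m + 1) N k) : d ≤ k := by
  refine lower_of_family (ι := (Fin d × Fin m) ⊕ Unit) (by simpa using hN) (whitney m d)
    (fun z hz => ?_) (fun z hz => ?_) (j0 := Sum.inr ()) (i := Fin.last m) rfl hk
  · rw [whitney_sum, hz]; ring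
  · rw [whitney_sum]
    have h1 : (1 : ℝ) ≤ ∑ s ∈ Finset.range d, (‖z (Fin.last m)‖ ^ 2) ^ s := by
      have : (‖z (Fin.last m)‖ ^ 2) ^ 0
          ≤ ∑ s ∈ Finset.range d, (‖z (Fin.last m)‖ ^ 2) ^ s :=
        Finset.single_le_sum (f := fun s => (‖z (Fin.last m)‖ ^ 2) ^ s)
          (fun s _ => by positivity) (Finset.mem_range.2 (by omega))
      simpa using this
    have h2 : 0 < 1 - ‖z‖ ^ 2 := by nlinarith [norm_nonneg z]
    nlinarith

/-! ### The sharp maps in dimension two -/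

/-- coefficients of the two variable Lucas polynomials -/
def lc : ℕ → ℕ → ℕ
  | 0, 0 => 2
  | 0, _ + 1 => 0
  | 1, 0 => 1
  | 1, _ + 1 => 0
  | m + 2, 0 => lc (m + 1) 0
  | m + 2, s + 1 => lc (m + 1) (s + 1) + lc m s

lemma lc_zero_of_lt : ∀ m s : ℕ, m < 2 * s → lc m s = 0
  | 0, 0, h => by omega
  | 0, _ + 1, _ => rfl
  | 1, 0, h => by omega
  | 1, _ + 1, _ => rfl
  | m + 2, 0, h => by omega
  | m + 2, s + 1, h => by
    rw [lc, lc_zero_of_lt (m + 1) (s + 1) (by omega), lc_zero_of_lt m s (by omega)]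

lemma lc_succ_zero : ∀ m : ℕ, lc (m + 1) 0 = 1
  | 0 => rfl
  | m + 1 => by rw [lc, lc_succ_zero m]

/-- the two variable Lucas polynomial -/
def lsum (m : ℕ) (x y : ℝ) : ℝ := ∑ s ∈ Finset.range (m + 1), (lc m s : ℝ) * x ^ (m - 2 * s) * y ^ s

lemma lsum_rec (m : ℕ) (x y : ℝ) : lsum (m + 2) x y = x * lsum (m + 1) x y + y * lsum m x y := by
  unfold lsum
  rw [Finset.sum_range_succ' (fun s => (lc (m + 2) s : ℝ) * x ^ (m + 2 - 2 * s) * y ^ s) (m + 2),
    Finset.sum_range_succ (fun s => (lc (m + 2) (s + 1) : ℝ) * x ^ (m + 2 - 2 * (s + 1)) *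
      y ^ (s + 1)) (m + 1),
    Finset.sum_range_succ' (fun s => (lc (m + 1) s : ℝ) * x ^ (m + 1 - 2 * s) * y ^ s) (m + 1)]
  have h1 : lc (m + 2) (m + 1 + 1) = 0 := lc_zero_of_lt _ _ (by omega)
  rw [h1]
  rw [mul_add x, Finset.mul_sum, Finset.mul_sum, Nat.cast_zero, zero_mul, zero_mul, add_zero]
  have h2 : ∀ s ∈ Finset.range (m + 1),
      (lc (m + 2) (s + 1) : ℝ) * x ^ (m + 2 - 2 * (s + 1)) * y ^ (s + 1)
      = x * ((lc (m + 1) (s + 1) : ℝ) * x ^ (m + 1 - 2 * (s + 1)) * y ^ (s + 1))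
        + y * ((lc m s : ℝ) * x ^ (m - 2 * s) * y ^ s) := by
    intro s _
    have h3 : lc (m + 2) (s + 1) = lc (m + 1) (s + 1) + lc m s := rfl
    have h4 : m + 2 - 2 * (s + 1) = m - 2 * s := by omega
    rw [h3, h4]
    push_cast
    by_cases hc : m + 1 < 2 * (s + 1)
    · rw [lc_zero_of_lt _ _ hc]
      push_cast
      ring
    · have h5 : m - 2 * s = (m + 1 - 2 * (s + 1)) + 1 := by omega
      rw [h5]
      ring
  rw [Finset.sum_congr rfl h2, Finset.sum_add_distrib]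
  have h6 : lc (m + 2) 0 = lc (m + 1) 0 := rfl
  rw [h6]
  simp only [Nat.mul_zero, Nat.sub_zero, pow_zero, mul_one]
  ring

lemma lsum_eval (y : ℝ) : ∀ m : ℕ, lsum m (1 - y) y = 1 + (-y) ^ m
  | 0 => by simp [lsum, lc]; norm_num
  | 1 => by
    simp [lsum, lc, Finset.sum_range_succ]; ring
  | m + 2 => by
    rw [lsum_rec, lsum_eval y (m + 1), lsum_eval y m]
    ring

lemma lsum_odd (r : ℕ) (x y : ℝ) : lsum (2 * r + 1) x y
    = ∑ s ∈ Finset.range (r + 1), (lc (2 * r + 1) s : ℝ) * x ^ (2 * r + 1 - 2 * s) * y ^ s := by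
  unfold lsum
  symm
  apply Finset.sum_subset
  · intro s hs
    rw [Finset.mem_range] at hs ⊢
    omega
  · intro s _ hs
    rw [Finset.mem_range, not_lt] at hs
    rw [lc_zero_of_lt _ _ (by omega)]
    simp

lemma lsum_lt {r : ℕ} {x x' y : ℝ} (hx : 0 ≤ x) (hxx : x < x') (hy : 0 ≤ y) :
    lsum (2 * r + 1) x y < lsum (2 * r + 1) x' y := by
  rw [lsum_odd, lsum_odd]
  apply Finset.sum_lt_sum
  · intro s _
    gcongr
  · refine ⟨0, by simp, ?_⟩
    rw [lc_succ_zero (2 * r)]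
    simp only [Nat.cast_one, one_mul, pow_zero, mul_one, Nat.mul_zero, Nat.sub_zero]
    exact pow_lt_pow_left₀ hxx hx (by omega)

/-- components of the sharp map of degree `2 r + 1` on `ℂ^2` -/
noncomputable def sharp (r : ℕ) : Fin (r + 1) ⊕ Unit → MvPolynomial (Fin 2) ℂ
  | Sum.inl s => MvPolynomial.C ((Real.sqrt (lc (2 * r + 1) s) : ℝ) : ℂ) *
      MvPolynomial.X 0 ^ (2 * r + 1 - 2 * (s : ℕ)) * MvPolynomial.X 1 ^ (s : ℕ)
  | Sum.inr _ => MvPolynomial.X 1 ^ (2 * r + 1)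

lemma sharp_sum (r : ℕ) (z : CSp 2) : ∑ a, ‖ev (sharp r a) z‖ ^ 2
    = lsum (2 * r + 1) (‖z 0‖ ^ 2) (‖z 1‖ ^ 2) + (‖z 1‖ ^ 2) ^ (2 * r + 1) := by
  rw [Fintype.sum_sum_type, lsum_odd]
  congr 1
  · rw [← Fin.sum_univ_eq_sum_range (fun s => (lc (2 * r + 1) s : ℝ) *
      (‖z 0‖ ^ 2) ^ (2 * r + 1 - 2 * s) * (‖z 1‖ ^ 2) ^ s) (r + 1)]
    refine Finset.sum_congr rfl fun s _ => ?_
    simp only [sharp, ev, map_mul, map_pow, MvPolynomial.eval_C, MvPolynomial.eval_X, norm_mul,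
      norm_pow, Complex.norm_real]
    rw [Real.norm_of_nonneg (Real.sqrt_nonneg _), mul_pow, mul_pow, Real.sq_sqrt (by positivity)]
    ring
  · simp [sharp, ev]
    ring

theorem lower_sharp {r : ℕ} (hN : r + 2 ≤ N) {k : ℕ} (hk : Determined 2 N k) : 2 * r + 1 ≤ k := by
  refine lower_of_family (ι := Fin (r + 1) ⊕ Unit)
    (by rw [Fintype.card_sum, Fintype.card_fin, Fintype.card_unit]; exact hN) (sharp r)
    (fun z hz => ?_) (fun z hz => ?_) (j0 := Sum.inr ()) (i := 1) rfl hk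
  · rw [sharp_sum]
    have h1 : ‖z 0‖ ^ 2 = 1 - ‖z 1‖ ^ 2 := by
      have : ‖z‖ ^ 2 = ‖z 0‖ ^ 2 + ‖z 1‖ ^ 2 := by
        rw [EuclideanSpace.norm_sq_eq, Fin.sum_univ_two]
      rw [hz] at this
      linarith
    rw [h1, lsum_eval, Odd.neg_pow (by exact ⟨r, rfl⟩)]
    ring
  · rw [sharp_sum]
    have h0 : ‖z‖ ^ 2 = ‖z 0‖ ^ 2 + ‖z 1‖ ^ 2 := by
      rw [EuclideanSpace.norm_sq_eq, Fin.sum_univ_two]
    have h1 : ‖z 0‖ ^ 2 < 1 - ‖z 1‖ ^ 2 := by nlinarith [norm_nonneg z]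
    have h2 := lsum_lt (r := r) (sq_nonneg ‖z 0‖) h1 (sq_nonneg ‖z 1‖)
    rw [lsum_eval, Odd.neg_pow (by exact ⟨r, rfl⟩)] at h2
    linarith

end Helper38.Ball
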