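import Mathlib

/-!
One variable Parseval lemma used for jet determination of proper rational maps between balls.
-/

namespace Helper38.Ball

open Metric Real Complex Filter Topology Asymptotics

/-- Orthogonality: a polynomial of degree at most `d` and a holomorphic function vanishing to order
`d + 1` at the origin are orthogonal on every circle. -/
lemma avg_conj_mul_eq_zero {d : ℕ} {r : ℝ} (hr0 : 0 < r) (hr1 : r < 1) (P : Polynomial ℂ)
    (hP : P.natDegree ≤ d) {H : ℂ → ℂ} (hH : DifferentiableOn ℂ H (ball 0 1))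
    (hHO : H =O[𝓝 0] fun z => ‖z‖ ^ (d + 1)) :
    circleAverage (fun z => (starRingEnd ℂ) (P.eval z) * H z) 0 r = 0 := by
  classical
  have hH0 : H 0 = 0 := by
    have := hHO.bound
    obtain ⟨C, hC⟩ := this
    have h0 := hC.self_of_nhds
    simpa using h0
  have key : circleAverage (fun z => (starRingEnd ℂ) (P.eval z) * H z) 0 r
      = circleAverage (fun z => ∑ m ∈ Finset.range (d + 1),
          ((starRingEnd ℂ) (P.coeff m) * (r : ℂ) ^ (2 * m)) * ((z ^ m)⁻¹ * H z)) 0 r := by
    apply circleAverage_congr_sphere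
    intro z hz
    have hz' : ‖z‖ = r := by simpa [abs_of_pos hr0] using hz
    have hz0 : z ≠ 0 := by
      rw [← norm_ne_zero_iff, hz']; exact hr0.ne'
    have hconj : (starRingEnd ℂ) z = (r : ℂ) ^ 2 * z⁻¹ := by
      have h1 : z * (starRingEnd ℂ) z = ((r : ℂ)) ^ 2 := by
        rw [Complex.mul_conj, Complex.normSq_eq_norm_sq, hz']; push_cast; ring
      field_simp
      linear_combination h1
    simp only
    rw [Polynomial.eval_eq_sum_range' (Nat.lt_succ_of_le hP), map_sum, Finset.sum_mul]
    refine Finset.sum_congr rfl fun m _ => ?_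
    rw [map_mul, map_pow, hconj, mul_pow, ← pow_mul, inv_pow]
    ring
  rw [key]
  have hcont : ∀ m ∈ Finset.range (d + 1),
      ContinuousOn (fun z : ℂ => (z ^ m)⁻¹ * H z) (closedBall 0 |r|) := by
    intro m hm z hz
    have hzr : ‖z‖ ≤ r := by simpa [abs_of_pos hr0] using hz
    have hz1 : z ∈ ball (0 : ℂ) 1 := by simpa using lt_of_le_of_lt hzr hr1
    by_cases hz0 : z = 0
    · subst hz0
      apply ContinuousAt.continuousWithinAt
      rw [ContinuousAt, hH0, mul_zero]
      have hm' : m < d + 1 := Finset.mem_range.1 hm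
      obtain ⟨C, hC⟩ := hHO.bound
      rw [tendsto_zero_iff_norm_tendsto_zero]
      have hlim : Tendsto (fun z : ℂ => C * ‖z‖ ^ (d + 1 - m)) (𝓝 0) (𝓝 0) := by
        have : Tendsto (fun z : ℂ => C * ‖z‖ ^ (d + 1 - m)) (𝓝 0)
            (𝓝 (C * ‖(0 : ℂ)‖ ^ (d + 1 - m))) := by
          apply Continuous.tendsto
          fun_prop
        simpa [Nat.sub_ne_zero_of_lt hm'] using this
      refine squeeze_zero' (Eventually.of_forall fun _ => norm_nonneg _) ?_ hlim
      filter_upwards [hC] with w hw
      by_cases hw0 : w = 0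
      · subst hw0
        simp [hH0, Nat.sub_ne_zero_of_lt hm']
      · have hwn : 0 < ‖w‖ := norm_pos_iff.2 hw0
        rw [norm_mul, norm_inv, norm_pow]
        have h2 : ‖H w‖ ≤ C * ‖w‖ ^ (d + 1) := by simpa using hw
        calc (‖w‖ ^ m)⁻¹ * ‖H w‖ ≤ (‖w‖ ^ m)⁻¹ * (C * ‖w‖ ^ (d + 1)) := by
              gcongr
          _ = C * ‖w‖ ^ (d + 1 - m) := by
              rw [show ‖w‖ ^ (d + 1) = ‖w‖ ^ (d + 1 - m) * ‖w‖ ^ m by
                rw [← pow_add]; congr 1; omega]
              field_simp
    · apply ContinuousAt.continuousWithinAt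
      have : ContinuousAt H z := (hH.differentiableAt (isOpen_ball.mem_nhds hz1)).continuousAt
      exact ((continuousAt_id.pow m).inv₀ (pow_ne_zero m hz0)).mul this
  have hval : ∑ m ∈ Finset.range (d + 1),
          ((starRingEnd ℂ) (P.coeff m) * (r : ℂ) ^ (2 * m)) * (((0 : ℂ) ^ m)⁻¹ * H 0) = 0 := by
    simp [hH0]
  rw [circleAverage_of_differentiable_on_off_countable (s := {0}) (Set.countable_singleton _)]
  · exact hval
  · exact continuousOn_finsetSum _ fun m hm => continuousOn_const.mul (hcont m hm)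
  · intro z hz
    have hz0 : z ≠ 0 := by simpa using hz.2
    have hz1 : z ∈ ball (0 : ℂ) 1 := by
      have : ‖z‖ < r := by simpa [abs_of_pos hr0] using hz.1
      simpa using this.trans hr1
    have hd := hH.differentiableAt (isOpen_ball.mem_nhds hz1)
    refine DifferentiableAt.fun_sum fun m _ => ?_
    exact (differentiableAt_const _).mul
      (((differentiableAt_id.pow m).inv (pow_ne_zero m hz0)).mul hd)

/-- One variable determination lemma. `G i` are holomorphic on the unit disc, `P i` polynomials of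
degree at most `d`, `∑ |G i|² ≤ |Q|²` on the disc, `∑ |P i|² = |Q|²` on the unit circle, and
`G i - P i` vanishes to order `d + 1` at the origin. Then `G i = P i` on the disc. -/
theorem oneVar {ι : Type*} [Fintype ι] {d : ℕ} (P : ι → Polynomial ℂ)
    (hP : ∀ i, (P i).natDegree ≤ d) (Q : ℂ → ℂ) (hQ : Continuous Q) (G : ι → ℂ → ℂ)
    (hG : ∀ i, DifferentiableOn ℂ (G i) (ball 0 1))
    (hGQ : ∀ z ∈ ball (0 : ℂ) 1, ∑ i, ‖G i z‖ ^ 2 ≤ ‖Q z‖ ^ 2)
    (hPQ : ∀ z : ℂ, ‖z‖ = 1 → ‖Q z‖ ^ 2 = ∑ i, ‖(P i).eval z‖ ^ 2)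
    (hO : ∀ i, (fun z => G i z - (P i).eval z) =O[𝓝 0] fun z => ‖z‖ ^ (d + 1)) :
    ∀ i, ∀ z ∈ ball (0 : ℂ) 1, G i z = (P i).eval z := by
  classical
  set H : ι → ℂ → ℂ := fun i z => G i z - (P i).eval z with hHdef
  have hPc : ∀ i, Continuous fun z : ℂ => (P i).eval z := fun i => (P i).continuous
  have hH : ∀ i, DifferentiableOn ℂ (H i) (ball 0 1) := fun i =>
    (hG i).sub ((P i).differentiable.differentiableOn)
  set Ψ : ℂ → ℝ := fun z => ‖Q z‖ ^ 2 - ∑ i, ‖(P i).eval z‖ ^ 2 with hΨ
  have hΨc : Continuous Ψ := by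
    refine (hQ.norm.pow 2).sub (continuous_finsetSum _ fun i _ => ((hPc i).norm.pow 2))
  have hΨ1 : ∀ z : ℂ, ‖z‖ = 1 → Ψ z = 0 := fun z hz => by simp [hΨ, hPQ z hz]
  -- uniform smallness near the circle
  have hsmall : ∀ ε > 0, ∃ r0 < 1, ∀ z : ℂ, r0 < ‖z‖ → ‖z‖ < 1 → Ψ z ≤ ε := by
    intro ε hε
    have huc : UniformContinuousOn Ψ (closedBall 0 1) :=
      (isCompact_closedBall (0 : ℂ) 1).uniformContinuousOn_of_continuous hΨc.continuousOn
    rw [Metric.uniformContinuousOn_iff] at huc
    obtain ⟨δ, hδ, hδ'⟩ := huc ε hε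
    refine ⟨max (1 - δ) (1 / 2), by
      apply max_lt <;> linarith, fun z hz hz1 => ?_⟩
    have hz2 : 1 - δ < ‖z‖ := lt_of_le_of_lt (le_max_left _ _) hz
    have hz3 : 1 / 2 < ‖z‖ := lt_of_le_of_lt (le_max_right _ _) hz
    have hz0 : 0 < ‖z‖ := by linarith
    set w : ℂ := (‖z‖⁻¹ : ℝ) • z with hw
    have hwn : ‖w‖ = 1 := by
      rw [hw, norm_smul, norm_inv, norm_norm, inv_mul_cancel₀ hz0.ne']
    have hdist : dist z w < δ := by
      have : z - w = ((1 - ‖z‖⁻¹ : ℝ)) • z := by
        rw [hw, sub_smul, one_smul]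
      rw [dist_eq_norm, this, norm_smul, Real.norm_eq_abs, ← abs_of_pos hz0, ← abs_mul, sub_mul,
        one_mul, abs_of_pos hz0, inv_mul_cancel₀ hz0.ne', abs_sub_comm, abs_of_pos (by linarith)]
      linarith
    have h := hδ' z (by simpa using hz1.le) w (by simp [hwn]) hdist
    rw [hΨ1 w hwn, dist_zero_right, Real.norm_eq_abs] at h
    exact (le_abs_self _).trans h.le
  intro i z hz
  have hz1 : ‖z‖ < 1 := by simpa using hz
  suffices hmain : H i z = 0 by
    have : G i z - (P i).eval z = 0 := hmain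
    exact sub_eq_zero.1 this
  -- the main estimate
  have hest : ∀ ε > 0, ‖H i z‖ ^ 2 ≤ (2 / (1 - ‖z‖)) * ε := by
    intro ε hε
    obtain ⟨r0, hr01, hr0⟩ := hsmall ε hε
    obtain ⟨r, hr1, hr2⟩ : ∃ r : ℝ, max r0 ((1 + ‖z‖) / 2) < r ∧ r < 1 :=
      exists_between (max_lt hr01 (by linarith))
    have hrr0 : r0 < r := lt_of_le_of_lt (le_max_left _ _) hr1
    have hrz : (1 + ‖z‖) / 2 < r := lt_of_le_of_lt (le_max_right _ _) hr1
    have hzn : 0 ≤ ‖z‖ := norm_nonneg z
    have hrpos : 0 < r := by linarith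
    have hsub : closedBall (0 : ℂ) r ⊆ ball 0 1 := closedBall_subset_ball hr2
    have hsph : sphere (0 : ℂ) |r| ⊆ ball 0 1 := by
      rw [abs_of_pos hrpos]
      exact sphere_subset_closedBall.trans hsub
    have hHcont : ∀ j, ContinuousOn (H j) (ball 0 1) := fun j => (hH j).continuousOn
    have hGcont : ∀ j, ContinuousOn (G j) (ball 0 1) := fun j => (hG j).continuousOn
    have hci : ∀ {φ : ℂ → ℝ}, ContinuousOn φ (ball 0 1) → CircleIntegrable φ 0 r := by
      intro φ hφ
      apply ContinuousOn.circleIntegrable hrpos.le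
      exact hφ.mono (by simpa [abs_of_pos hrpos] using hsph)
    have hciC : ∀ {φ : ℂ → ℂ}, ContinuousOn φ (ball 0 1) → CircleIntegrable φ 0 r := by
      intro φ hφ
      apply ContinuousOn.circleIntegrable hrpos.le
      exact hφ.mono (by simpa [abs_of_pos hrpos] using hsph)
    -- Pythagoras on the circle
    have hpyth : ∀ j, circleAverage (fun w => ‖G j w‖ ^ 2) 0 r
        = circleAverage (fun w => ‖(P j).eval w‖ ^ 2) 0 r
          + circleAverage (fun w => ‖H j w‖ ^ 2) 0 r := by
      intro j
      have hconv : ∀ w, ‖G j w‖ ^ 2 = (‖(P j).eval w‖ ^ 2 + ‖H j w‖ ^ 2)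
          + 2 * ((starRingEnd ℂ) ((P j).eval w) * H j w).re := by
        intro w
        have hGw : G j w = (P j).eval w + H j w := by simp [hHdef]
        rw [hGw, ← Complex.normSq_eq_norm_sq, ← Complex.normSq_eq_norm_sq,
          ← Complex.normSq_eq_norm_sq, Complex.normSq_add]
        congr 2
        rw [← Complex.conj_re]
        simp [mul_comm]
      have hcross : circleAverage
          (fun w => 2 * ((starRingEnd ℂ) ((P j).eval w) * H j w).re) 0 r = 0 := by
        have h0 := avg_conj_mul_eq_zero hrpos hr2 (P j) (hP j) (hH j) (hO j)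
        have hc : CircleIntegrable (fun w => (starRingEnd ℂ) ((P j).eval w) * H j w) 0 r :=
          hciC ((Complex.continuous_conj.comp (hPc j)).continuousOn.mul (hHcont j))
        have h1 := (Complex.reCLM).circleAverage_comp_comm hc
        rw [h0] at h1
        have h2 : circleAverage (fun w => ((starRingEnd ℂ) ((P j).eval w) * H j w).re) 0 r = 0 := by
          simpa [Function.comp_def] using h1
        have h3 := circleAverage_fun_smul (a := (2 : ℝ)) (c := (0 : ℂ)) (R := r)
          (f := fun w => ((starRingEnd ℂ) ((P j).eval w) * H j w).re)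
        simp only [smul_eq_mul] at h3
        rw [h3, h2, mul_zero]
      have hcP : ContinuousOn (fun w => ‖(P j).eval w‖ ^ 2) (ball (0 : ℂ) 1) :=
        ((hPc j).norm.pow 2).continuousOn
      have hcH : ContinuousOn (fun w => ‖H j w‖ ^ 2) (ball (0 : ℂ) 1) := (hHcont j).norm.pow 2
      have hcX : ContinuousOn (fun w => 2 * ((starRingEnd ℂ) ((P j).eval w) * H j w).re)
          (ball (0 : ℂ) 1) :=
        continuousOn_const.mul (Complex.continuous_re.comp_continuousOn
          ((Complex.continuous_conj.comp (hPc j)).continuousOn.mul (hHcont j)))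
      have hfe : (fun w => ‖G j w‖ ^ 2) = fun w => (‖(P j).eval w‖ ^ 2 + ‖H j w‖ ^ 2)
          + 2 * ((starRingEnd ℂ) ((P j).eval w) * H j w).re := funext hconv
      have hPH : CircleIntegrable (fun w => ‖(P j).eval w‖ ^ 2 + ‖H j w‖ ^ 2) 0 r :=
        hci (hcP.add hcH)
      rw [hfe, circleAverage_fun_add hPH (hci hcX), hcross, add_zero,
        circleAverage_fun_add (hci hcP) (hci hcH)]
    have hsumH : ∑ j, circleAverage (fun w => ‖H j w‖ ^ 2) 0 r ≤ ε := by
      have h1 : ∑ j, circleAverage (fun w => ‖H j w‖ ^ 2) 0 r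
          = circleAverage (fun w => ∑ j, ‖G j w‖ ^ 2) 0 r
            - circleAverage (fun w => ∑ j, ‖(P j).eval w‖ ^ 2) 0 r := by
        have hG2 : ∀ j ∈ (Finset.univ : Finset ι), CircleIntegrable (fun w => ‖G j w‖ ^ 2) 0 r :=
          fun j _ => hci ((hGcont j).norm.pow 2)
        have hP2 : ∀ j ∈ (Finset.univ : Finset ι),
            CircleIntegrable (fun w => ‖(P j).eval w‖ ^ 2) 0 r :=
          fun j _ => hci (((hPc j).norm.pow 2).continuousOn)
        rw [circleAverage_fun_sum hG2, circleAverage_fun_sum hP2, ← Finset.sum_sub_distrib]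
        refine Finset.sum_congr rfl fun j _ => ?_
        rw [hpyth j]; ring
      have h2 : circleAverage (fun w => ∑ j, ‖G j w‖ ^ 2) 0 r
          ≤ circleAverage (fun w => ‖Q w‖ ^ 2) 0 r := by
        apply circleAverage_mono
        · exact hci (continuousOn_finsetSum _ fun j _ => (hGcont j).norm.pow 2)
        · exact hci ((hQ.norm.pow 2).continuousOn)
        · intro w hw
          exact hGQ w (hsph hw)
      have h3 : circleAverage (fun w => ‖Q w‖ ^ 2) 0 r
            - circleAverage (fun w => ∑ j, ‖(P j).eval w‖ ^ 2) 0 r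
          = circleAverage Ψ 0 r := by
        have hQ2 : CircleIntegrable (fun w => ‖Q w‖ ^ 2) 0 r := hci ((hQ.norm.pow 2).continuousOn)
        have hP3 : CircleIntegrable (fun w => ∑ j, ‖(P j).eval w‖ ^ 2) 0 r :=
          hci (continuousOn_finsetSum _ fun j _ => ((hPc j).norm.pow 2).continuousOn)
        rw [hΨ, circleAverage_fun_sub hQ2 hP3]
      have h4 : circleAverage Ψ 0 r ≤ ε := by
        apply circleAverage_mono_on_of_le_circle (hci hΨc.continuousOn)
        intro w hw
        have hwr : ‖w‖ = r := by simpa [abs_of_pos hrpos] using hw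
        exact hr0 w (by rw [hwr]; exact hrr0) (by rw [hwr]; exact hr2)
      rw [h1]
      linarith
    have hone : circleAverage (fun w => ‖H i w‖ ^ 2) 0 r ≤ ε := by
      refine le_trans ?_ hsumH
      apply Finset.single_le_sum (f := fun j => circleAverage (fun w => ‖H j w‖ ^ 2) 0 r)
        (fun j _ => ?_) (Finset.mem_univ i)
      exact circleAverage_nonneg_of_nonneg fun w _ => by positivity
    -- mean value formula for `(H i)^2`
    have hdc : DiffContOnCl ℂ (fun w => (H i w) ^ 2) (ball (0 : ℂ) |r|) := by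
      rw [abs_of_pos hrpos]
      apply DifferentiableOn.diffContOnCl
      refine ((hH i).pow 2).mono ?_
      rw [closure_ball (0 : ℂ) hrpos.ne']
      exact hsub
    have hzr : z ∈ ball (0 : ℂ) |r| := by
      rw [abs_of_pos hrpos]; simp; linarith
    have hmv := DiffContOnCl.circleAverage_smul_div hdc hzr
    have hfin : ‖H i z‖ ^ 2 ≤ circleAverage (fun w => (2 / (1 - ‖z‖)) * ‖H i w‖ ^ 2) 0 r := by
      have h1 : ‖H i z‖ ^ 2
          = ‖circleAverage (fun w => ((w - 0) / (w - z)) • (H i w) ^ 2) 0 r‖ := by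
        rw [hmv, norm_pow]
      rw [h1, circleAverage_def, circleAverage_def, norm_smul, smul_eq_mul, norm_inv,
        Real.norm_of_nonneg Real.two_pi_pos.le]
      apply mul_le_mul_of_nonneg_left _ (by positivity)
      refine (intervalIntegral.norm_integral_le_integral_norm Real.two_pi_pos.le).trans ?_
      have hcirc : ∀ θ : ℝ, circleMap 0 r θ ∈ ball (0 : ℂ) 1 := fun θ => by
        simp [abs_of_pos hrpos, hr2]
      have hne : ∀ θ : ℝ, circleMap 0 r θ - z ≠ 0 := fun θ h => by
        have : ‖circleMap 0 r θ‖ = ‖z‖ := by rw [sub_eq_zero.1 h]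
        simp [abs_of_pos hrpos] at this
        linarith
      have hHθ : Continuous fun θ : ℝ => H i (circleMap 0 r θ) := by
        rw [← continuousOn_univ]
        exact (hHcont i).comp (continuous_circleMap 0 r).continuousOn fun θ _ => hcirc θ
      apply intervalIntegral.integral_mono_on Real.two_pi_pos.le
      · apply Continuous.intervalIntegrable
        have hc1 : Continuous fun θ : ℝ => (circleMap 0 r θ - 0) / (circleMap 0 r θ - z) :=
          Continuous.div (by fun_prop) (by fun_prop) hne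
        have hc2 : Continuous fun θ : ℝ => H i (circleMap 0 r θ) ^ 2 := hHθ.pow 2
        exact (hc1.smul hc2).norm
      · apply Continuous.intervalIntegrable
        exact continuous_const.mul (hHθ.norm.pow 2)
      · intro θ _
        rw [norm_smul, norm_pow]
        apply mul_le_mul_of_nonneg_right _ (by positivity)
        rw [sub_zero, norm_div, norm_circleMap_zero, abs_of_pos hrpos]
        have h5 : (1 - ‖z‖) / 2 ≤ ‖circleMap 0 r θ - z‖ := by
          have := norm_sub_norm_le (circleMap 0 r θ) z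
          rw [norm_circleMap_zero, abs_of_pos hrpos] at this
          linarith
        have h6 : 0 < (1 - ‖z‖) / 2 := by linarith
        calc r / ‖circleMap 0 r θ - z‖ ≤ 1 / ((1 - ‖z‖) / 2) := by
              gcongr
          _ = 2 / (1 - ‖z‖) := by
              have : (1 - ‖z‖) ≠ 0 := by linarith
              field_simp
    refine hfin.trans ?_
    have h7 := circleAverage_fun_smul (a := (2 / (1 - ‖z‖) : ℝ)) (c := (0 : ℂ)) (R := r)
          (f := fun w => ‖H i w‖ ^ 2)
    simp only [smul_eq_mul] at h7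
    rw [h7]
    exact mul_le_mul_of_nonneg_left hone (by
      have : 0 < 1 - ‖z‖ := by linarith
      positivity)
  have hle : ‖H i z‖ ^ 2 ≤ 0 := by
    apply le_of_forall_pos_le_add
    intro ε hε
    have hc : 0 < 2 / (1 - ‖z‖) := by
      have : 0 < 1 - ‖z‖ := by linarith
      positivity
    have := hest (ε / (2 / (1 - ‖z‖))) (by positivity)
    rw [mul_div_cancel₀ _ hc.ne'] at this
    linarith
  have h8 : ‖H i z‖ = 0 := by
    have := sq_nonneg ‖H i z‖
    nlinarith [norm_nonneg (H i z)]
  exact norm_eq_zero.1 h8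

end Helper38.Ball
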