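import Pool.Agent.Helper38.BallLower

/-!
General lower bound principle: a component vanishing to order `d` at the origin.
-/

namespace Helper38.Ball

open Metric Filter Topology

variable {n N : ℕ}

/-- If one component of a proper rational map vanishes to order at least `d` at the origin but not
identically, then jets of order less than `d` do not suffice. -/
theorem lower_of_order {f : CSp n → CSp N} (hf : IsProper f) (hfr : IsRational f) {j0 : Fin N}
    {d : ℕ} (hv : ∀ m < d, iteratedFDeriv ℂ m (fun z => f z j0) 0 = 0)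
    (hne : ∃ z ∈ ball (0 : CSp n) 1, f z j0 ≠ 0) {k : ℕ} (hk : Determined n N k) : d ≤ k := by
  classical
  by_contra hcon
  push Not at hcon
  set v : CSp N := EuclideanSpace.single j0 (2 : ℂ) with hvdef
  set L : ℂ →L[ℂ] CSp N := (ContinuousLinearMap.id ℂ ℂ).smulRight v with hL
  set R : CSp N → CSp N := fun w => w - L (w j0) with hR
  have hRc : Continuous R := by
    have : Continuous fun w : CSp N => w j0 := by fun_prop
    exact continuous_id.sub (L.continuous.comp this)
  have hRj : ∀ w j, R w j = if j = j0 then - w j else w j := by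
    intro w j
    by_cases hj : j = j0
    · subst hj
      simp [hR, hL, hvdef]; ring
    · simp [hR, hL, hvdef, hj]
  have hRn : ∀ w, ‖R w‖ = ‖w‖ := by
    intro w
    rw [EuclideanSpace.norm_eq, EuclideanSpace.norm_eq]
    congr 1
    refine Finset.sum_congr rfl fun j _ => ?_
    rw [hRj]
    split_ifs <;> simp
  have hRR : ∀ w, R (R w) = w := by
    intro w
    apply PiLp.ext
    intro j
    rw [hRj, hRj]
    split_ifs <;> simp
  have h0 : (0 : CSp n) ∈ ball (0 : CSp n) 1 := by simp
  have hcoord : AnalyticOnNhd ℂ (fun z => f z j0) (ball 0 1) := by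
    intro z hz
    exact ((EuclideanSpace.proj (𝕜 := ℂ) j0 : CSp N →L[ℂ] ℂ).analyticAt _).comp (hf.holo z hz)
  set g : CSp n → CSp N := fun z => R (f z) with hg
  have hLan : AnalyticOnNhd ℂ (fun z => L (f z j0)) (ball 0 1) := fun z hz =>
    (L.analyticAt _).comp (hcoord z hz)
  have hgan : AnalyticOnNhd ℂ g (ball 0 1) := fun z hz => (hf.holo z hz).sub (hLan z hz)
  have hgp : IsProper g := by
    refine ⟨hgan, fun z hz => ?_, fun K hK hKc => ?_⟩
    · rw [mem_ball_zero_iff]
      have := hf.maps z hz
      rw [mem_ball_zero_iff] at this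
      rw [hg, hRn]
      exact this
    · have hK' : R '' K ⊆ ball (0 : CSp N) 1 := by
        rintro _ ⟨w, hw, rfl⟩
        have := hK hw
        rw [mem_ball_zero_iff] at this ⊢
        rw [hRn]
        exact this
      have h1 := hf.proper (R '' K) hK' (hKc.image hRc)
      have h2 : {z ∈ ball (0 : CSp n) 1 | g z ∈ K} = {z ∈ ball (0 : CSp n) 1 | f z ∈ R '' K} := by
        ext z
        constructor
        · rintro ⟨hz, hzK⟩
          exact ⟨hz, ⟨g z, hzK, hRR _⟩⟩
        · rintro ⟨hz, ⟨w, hw, hwz⟩⟩
          refine ⟨hz, ?_⟩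
          rw [hg]
          simp only
          rw [← hwz, hRR]
          exact hw
      rw [h2]
      exact h1
  have hgr : IsRational g := by
    intro j
    obtain ⟨p, q, hq, hpq⟩ := hfr j
    by_cases hj : j = j0
    · refine ⟨-p, q, hq, fun z hz => ?_⟩
      rw [hg]
      simp only
      rw [hRj, if_pos hj, mul_neg, hpq z hz, map_neg]
    · refine ⟨p, q, hq, fun z hz => ?_⟩
      rw [hg]
      simp only
      rw [hRj, if_neg hj, hpq z hz]
  have hjet : SameJet k f g := by
    intro m hm
    have hc1 : ContDiffAt ℂ m g 0 := (hgan 0 h0).contDiffAt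
    have hc2 : ContDiffAt ℂ m (fun z => L (f z j0)) 0 := (hLan 0 h0).contDiffAt
    have hc3 : ContDiffAt ℂ m (fun z => f z j0) 0 := (hcoord 0 h0).contDiffAt
    have h3 : iteratedFDeriv ℂ m (fun z => L (f z j0)) 0 = 0 := by
      have := L.iteratedFDeriv_comp_left hc3 (i := m) le_rfl
      change iteratedFDeriv ℂ m (L ∘ fun z => f z j0) 0 = 0
      rw [this, hv m (lt_of_le_of_lt hm hcon)]
      ext y
      simp
    have h4 := iteratedFDeriv_add_apply (i := m) (x := (0 : CSp n)) (f := g)
      (g := fun z => L (f z j0)) hc1 hc2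
    rw [h3, add_zero] at h4
    have h5 : g + (fun z => L (f z j0)) = f := by
      funext z
      simp [hg, hR]
    rw [h5] at h4
    exact h4
  have heq := hk f g hf hfr hgp hgr hjet
  obtain ⟨z, hz, hzne⟩ := hne
  have h6 := congrArg (fun w : CSp N => w j0) (heq hz)
  simp only [hg] at h6
  rw [hRj, if_pos rfl] at h6
  apply hzne
  linear_combination (-1 / 2 : ℂ) * h6

end Helper38.Ball
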