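import Pool.Agent.Helper38.BallOneVar
import Pool.Agent.Helper38.BallDefs

/-!
Upper bound: a proper rational map of degree at most `d` is determined by its `d`-jet at the origin.
-/

namespace Helper38.Ball

open Metric Filter Topology Asymptotics

variable {n N : ℕ}

/-- evaluation of a polynomial at a point of `ℂ^n` -/
noncomputable def ev (p : MvPolynomial (Fin n) ℂ) (z : CSp n) : ℂ :=
  MvPolynomial.eval (fun i => z i) p

lemma ev_continuous (p : MvPolynomial (Fin n) ℂ) : Continuous (ev p) := by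
  unfold ev
  have h1 : Continuous fun z : CSp n => (fun i => z i : Fin n → ℂ) := by fun_prop
  exact (MvPolynomial.continuous_eval p).comp h1

/-- Properness: `‖f (t ζ)‖ → 1` as `t → 1⁻`. -/
lemma norm_gt_of_proper {f : CSp n → CSp N} (hf : IsProper f) {ε : ℝ} (hε : 0 < ε) :
    ∃ r < 1, ∀ z ∈ ball (0 : CSp n) 1, r < ‖z‖ → 1 - ε < ‖f z‖ := by
  by_cases hε1 : 1 - ε < 0
  · exact ⟨0, one_pos, fun z _ _ => lt_of_lt_of_le hε1 (norm_nonneg _)⟩
  push Not at hε1
  set K : Set (CSp N) := closedBall 0 (1 - ε)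
  have hK : K ⊆ ball (0 : CSp N) 1 := closedBall_subset_ball (by linarith)
  have hS := hf.proper K hK (isCompact_closedBall _ _)
  set S : Set (CSp n) := {z ∈ ball (0 : CSp n) 1 | f z ∈ K}
  by_cases hne : S.Nonempty
  · obtain ⟨z0, hz0, hmax⟩ := hS.exists_isMaxOn hne continuous_norm.continuousOn
    refine ⟨‖z0‖, by simpa using hz0.1, fun z hz hlt => ?_⟩
    by_contra hcon
    push Not at hcon
    have hzS : z ∈ S := ⟨hz, by simpa [K] using hcon⟩
    have := hmax hzS
    simp only [Set.mem_ofPred_eq] at this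
    linarith
  · refine ⟨0, one_pos, fun z hz _ => ?_⟩
    by_contra hcon
    push Not at hcon
    exact hne ⟨z, hz, by simpa [K] using hcon⟩

/-- On the unit sphere `|q|² = ∑ |p_j|²`. -/
lemma boundary_identity {f : CSp n → CSp N} (hf : IsProper f) {p : Fin N → MvPolynomial (Fin n) ℂ}
    {q : MvPolynomial (Fin n) ℂ}
    (hpq : ∀ z ∈ ball (0 : CSp n) 1, ∀ j, ev q z * f z j = ev (p j) z)
    {ζ : CSp n} (hζ : ‖ζ‖ = 1) : ‖ev q ζ‖ ^ 2 = ∑ j, ‖ev (p j) ζ‖ ^ 2 := by
  have hnz : ∀ t : ℝ, 0 ≤ t → ‖(t : ℂ) • ζ‖ = t := fun t ht => by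
    rw [norm_smul, hζ, mul_one, Complex.norm_real, Real.norm_of_nonneg ht]
  have hpath : Continuous fun t : ℝ => (t : ℂ) • ζ := by fun_prop
  have h1 : Tendsto (fun t : ℝ => ‖f ((t : ℂ) • ζ)‖) (𝓝[<] 1) (𝓝 1) := by
    rw [Metric.tendsto_nhds]
    intro ε hε
    obtain ⟨r, hr, hr'⟩ := norm_gt_of_proper hf hε
    have hmem : Set.Ioo (max r 0) 1 ∈ 𝓝[<] (1 : ℝ) :=
      Ioo_mem_nhdsLT (max_lt hr one_pos)
    filter_upwards [hmem] with t ht
    have ht0 : 0 < t := lt_of_le_of_lt (le_max_right _ _) ht.1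
    have htr : r < t := lt_of_le_of_lt (le_max_left _ _) ht.1
    have hball : (t : ℂ) • ζ ∈ ball (0 : CSp n) 1 := by
      rw [mem_ball_zero_iff, hnz t ht0.le]; exact ht.2
    have h2 := hr' _ hball (by rw [hnz t ht0.le]; exact htr)
    have h3 : ‖f ((t : ℂ) • ζ)‖ < 1 := by simpa using hf.maps _ hball
    rw [Real.dist_eq, abs_lt]
    constructor <;> linarith
  have hlhs : Tendsto (fun t : ℝ => ‖ev q ((t : ℂ) • ζ)‖ ^ 2 * ‖f ((t : ℂ) • ζ)‖ ^ 2) (𝓝[<] 1)
      (𝓝 (‖ev q ζ‖ ^ 2 * 1 ^ 2)) := by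
    refine Tendsto.mul ?_ (h1.pow 2)
    have : Continuous fun t : ℝ => ‖ev q ((t : ℂ) • ζ)‖ ^ 2 :=
      ((ev_continuous q).comp hpath).norm.pow 2
    have h := (this.tendsto 1).mono_left (nhdsWithin_le_nhds (s := Set.Iio (1 : ℝ)))
    simpa using h
  have hrhs : Tendsto (fun t : ℝ => ∑ j, ‖ev (p j) ((t : ℂ) • ζ)‖ ^ 2) (𝓝[<] 1)
      (𝓝 (∑ j, ‖ev (p j) ζ‖ ^ 2)) := by
    have : Continuous fun t : ℝ => ∑ j, ‖ev (p j) ((t : ℂ) • ζ)‖ ^ 2 :=
      continuous_finsetSum _ fun j _ => ((ev_continuous (p j)).comp hpath).norm.pow 2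
    have h := (this.tendsto 1).mono_left (nhdsWithin_le_nhds (s := Set.Iio (1 : ℝ)))
    simpa using h
  have heq : (fun t : ℝ => ‖ev q ((t : ℂ) • ζ)‖ ^ 2 * ‖f ((t : ℂ) • ζ)‖ ^ 2)
      =ᶠ[𝓝[<] 1] fun t : ℝ => ∑ j, ‖ev (p j) ((t : ℂ) • ζ)‖ ^ 2 := by
    have hmem : Set.Ioo (0 : ℝ) 1 ∈ 𝓝[<] (1 : ℝ) := Ioo_mem_nhdsLT one_pos
    filter_upwards [hmem] with t ht
    have hball : (t : ℂ) • ζ ∈ ball (0 : CSp n) 1 := by
      rw [mem_ball_zero_iff, hnz t ht.1.le]; exact ht.2
    rw [EuclideanSpace.norm_sq_eq, Finset.mul_sum]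
    refine Finset.sum_congr rfl fun j _ => ?_
    rw [← hpq _ hball j, norm_mul, mul_pow]
  have := tendsto_nhds_unique (hlhs.congr' heq) hrhs
  simpa using this

/-- The one variable polynomial `λ ↦ p (λ ζ)`. -/
noncomputable def slice (p : MvPolynomial (Fin n) ℂ) (ζ : CSp n) : Polynomial ℂ :=
  MvPolynomial.aeval (fun i => Polynomial.C (ζ i) * Polynomial.X) p

lemma slice_eval (p : MvPolynomial (Fin n) ℂ) (ζ : CSp n) (w : ℂ) :
    (slice p ζ).eval w = ev p (w • ζ) := by
  unfold slice ev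
  have h : ((Polynomial.evalRingHom w).comp (MvPolynomial.aeval
      (fun i => Polynomial.C (ζ i) * Polynomial.X) : MvPolynomial (Fin n) ℂ →ₐ[ℂ]
        Polynomial ℂ).toRingHom) = MvPolynomial.eval (fun i => (w • ζ) i) := by
    apply MvPolynomial.ringHom_ext
    · intro a
      change Polynomial.eval w (MvPolynomial.aeval _ (MvPolynomial.C a)) = _
      rw [MvPolynomial.aeval_C, MvPolynomial.eval_C, Polynomial.algebraMap_apply,
        Polynomial.eval_C]
      rfl
    · intro i
      change Polynomial.eval w (MvPolynomial.aeval _ (MvPolynomial.X i)) = _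
      rw [MvPolynomial.aeval_X, MvPolynomial.eval_X, Polynomial.eval_mul, Polynomial.eval_C,
        Polynomial.eval_X, PiLp.smul_apply, smul_eq_mul, mul_comm]
  exact congrArg (fun F => F p) h

lemma slice_natDegree {p : MvPolynomial (Fin n) ℂ} {d : ℕ} (hp : p.totalDegree ≤ d) (ζ : CSp n) :
    (slice p ζ).natDegree ≤ d := by
  have := MvPolynomial.aeval_natDegree_le p hp (fun i => Polynomial.C (ζ i) * Polynomial.X)
    (n := 1) (fun i => (Polynomial.natDegree_C_mul_le _ _).trans Polynomial.natDegree_X_le)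
  simpa [slice] using this

/-- Equality of `d`-jets of analytic functions gives a difference of order `d + 1`. -/
lemma isBigO_of_sameJet {d : ℕ} {f g : CSp n → CSp N} (hf : AnalyticAt ℂ f 0)
    (hg : AnalyticAt ℂ g 0) (h : SameJet d f g) :
    (fun z => g z - f z) =O[𝓝 0] fun z => ‖z‖ ^ (d + 1) := by
  obtain ⟨pf, hpf⟩ := hf
  obtain ⟨pg, hpg⟩ := hg
  have hsub := hpg.sub hpf
  have hO := hsub.isBigO_sub_partialSum_pow (d + 1)
  have hps : ∀ y : CSp n, (pg - pf).partialSum (d + 1) y = 0 := by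
    intro y
    rw [FormalMultilinearSeries.partialSum]
    refine Finset.sum_eq_zero fun m hm => ?_
    have hm' : m ≤ d := Nat.lt_succ_iff.1 (Finset.mem_range.1 hm)
    obtain ⟨rf, hrf⟩ := hpf
    obtain ⟨rg, hrg⟩ := hpg
    have h1 := hrf.factorial_smul y m
    have h2 := hrg.factorial_smul y m
    have h3 := h m hm'
    have h4 : (m.factorial) • (pg m (fun _ => y) - pf m (fun _ => y)) = 0 := by
      rw [smul_sub, h1, h2, h3, sub_self]
    rw [← Nat.cast_smul_eq_nsmul ℂ] at h4
    have h5 := (smul_eq_zero.1 h4).resolve_left (by exact_mod_cast Nat.factorial_ne_zero m)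
    simpa using h5
  simp only [hps, sub_zero, zero_add] at hO
  simpa using hO

theorem eqOn_of_degreeLE {d : ℕ} {f g : CSp n → CSp N} (hf : IsProper f) (hfd : DegreeLE f d)
    (hg : AnalyticOnNhd ℂ g (ball 0 1)) (hg1 : ∀ z ∈ ball (0 : CSp n) 1, ‖g z‖ ≤ 1)
    (hj : SameJet d f g) : Set.EqOn g f (ball 0 1) := by
  obtain ⟨p, q, hq0, -, hpd, hpq'⟩ := hfd
  have hpq : ∀ z ∈ ball (0 : CSp n) 1, ∀ j, ev q z * f z j = ev (p j) z := hpq'
  have h0 : (0 : CSp n) ∈ ball (0 : CSp n) 1 := by simp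
  have hO := isBigO_of_sameJet (hf.holo 0 h0) (hg 0 h0) hj
  -- first step : `q g = q f`
  have hqg : ∀ z ∈ ball (0 : CSp n) 1, ∀ j, ev q z * g z j = ev q z * f z j := by
    intro z hz j
    by_cases hz0 : z = 0
    · have h := hj 0 (Nat.zero_le d)
      have h' : f 0 = g 0 := by
        have := congrArg (fun T => T (fun _ => (0 : CSp n))) h
        simpa [iteratedFDeriv_zero_apply] using this
      rw [hz0, h']
    · have hzn : 0 < ‖z‖ := norm_pos_iff.2 hz0
      have hz1 : ‖z‖ < 1 := by simpa using hz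
      set ζ : CSp n := ((‖z‖⁻¹ : ℝ) : ℂ) • z with hζdef
      have hζ : ‖ζ‖ = 1 := by
        rw [hζdef, norm_smul, Complex.norm_real, norm_inv, norm_norm, inv_mul_cancel₀ hzn.ne']
      have hzζ : ((‖z‖ : ℝ) : ℂ) • ζ = z := by
        rw [hζdef, smul_smul, ← Complex.ofReal_mul, mul_inv_cancel₀ hzn.ne']
        simp
      have hmem : ∀ w ∈ ball (0 : ℂ) 1, w • ζ ∈ ball (0 : CSp n) 1 := fun w hw => by
        have : ‖w‖ < 1 := by simpa using hw
        simpa [norm_smul, hζ] using this
      have hlin : Differentiable ℂ fun w : ℂ => w • ζ := by fun_prop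
      have hgj : ∀ i, DifferentiableOn ℂ (fun w : ℂ => g (w • ζ) i) (ball 0 1) := by
        intro i
        have h1 : DifferentiableOn ℂ (fun w : ℂ => g (w • ζ)) (ball 0 1) :=
          hg.differentiableOn.comp hlin.differentiableOn hmem
        have h2 : Differentiable ℂ fun v : CSp N => v i := by fun_prop
        exact h2.comp_differentiableOn h1
      have hqd : Differentiable ℂ fun w : ℂ => ev q (w • ζ) := by
        have : (fun w : ℂ => ev q (w • ζ)) = fun w => (slice q ζ).eval w := by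
          funext w; rw [slice_eval]
        rw [this]
        exact (slice q ζ).differentiable
      have key := oneVar (d := d) (fun i => slice (p i) ζ) (fun i => slice_natDegree (hpd i) ζ)
        (fun w => ev q (w • ζ)) hqd.continuous (fun i w => ev q (w • ζ) * g (w • ζ) i)
        (fun i => hqd.differentiableOn.mul (hgj i)) ?_ ?_ ?_ j ((‖z‖ : ℝ) : ℂ) ?_
      · simp only [slice_eval, hzζ] at key
        rw [key, hpq z hz j]
      · intro w hw
        have h1 := hg1 _ (hmem w hw)
        have h2 : ∑ i, ‖ev q (w • ζ) * g (w • ζ) i‖ ^ 2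
            = ‖ev q (w • ζ)‖ ^ 2 * ‖g (w • ζ)‖ ^ 2 := by
          rw [EuclideanSpace.norm_sq_eq, Finset.mul_sum]
          refine Finset.sum_congr rfl fun i _ => ?_
          rw [norm_mul, mul_pow]
        rw [h2]
        calc ‖ev q (w • ζ)‖ ^ 2 * ‖g (w • ζ)‖ ^ 2 ≤ ‖ev q (w • ζ)‖ ^ 2 * 1 ^ 2 := by gcongr
          _ = ‖ev q (w • ζ)‖ ^ 2 := by ring
      · intro w hw
        have hw1 : ‖w • ζ‖ = 1 := by rw [norm_smul, hζ, hw, mul_one]
        simp only [slice_eval]
        exact boundary_identity hf hpq hw1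
      · intro i
        have hO2 : (fun w : ℂ => g (w • ζ) - f (w • ζ)) =O[𝓝 0] fun w => ‖w‖ ^ (d + 1) := by
          have htend : Tendsto (fun w : ℂ => w • ζ) (𝓝 0) (𝓝 0) := by
            have := hlin.continuous.tendsto 0
            simpa using this
          have := hO.comp_tendsto htend
          refine this.congr_right ?_
          intro w
          simp [norm_smul, hζ]
        have hO3 : (fun w : ℂ => g (w • ζ) i - f (w • ζ) i) =O[𝓝 0] fun w => ‖w‖ ^ (d + 1) := by
          refine IsBigO.trans ?_ hO2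
          refine IsBigO.of_bound 1 (Eventually.of_forall fun w => ?_)
          have := PiLp.norm_apply_le (g (w • ζ) - f (w • ζ)) i
          simpa using this
        have hO4 : (fun w : ℂ => ev q (w • ζ)) =O[𝓝 0] fun _ => (1 : ℝ) := by
          have hc : ContinuousAt (fun w : ℂ => ev q (w • ζ)) 0 := hqd.continuous.continuousAt
          exact hc.tendsto.isBigO_one ℝ
        have hO5 := hO4.mul hO3
        have hev : (fun w : ℂ => ev q (w • ζ) * (g (w • ζ) i - f (w • ζ) i))
            =ᶠ[𝓝 0] fun w => ev q (w • ζ) * g (w • ζ) i - (slice (p i) ζ).eval w := by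
          have hnb : ball (0 : ℂ) 1 ∈ 𝓝 (0 : ℂ) := ball_mem_nhds _ one_pos
          filter_upwards [hnb] with w hw
          rw [slice_eval, ← hpq _ (hmem w hw) i]
          ring
        refine (hO5.congr' hev (Eventually.of_forall fun w => ?_))
        simp
      · simpa using hz1
  -- second step : remove `q`
  intro z0 hz0
  by_contra hne
  have hne' : ∃ j, g z0 j ≠ f z0 j := by
    by_contra hcon
    push Not at hcon
    exact hne (PiLp.ext hcon)
  obtain ⟨j, hj'⟩ := hne'
  have hcg : ContinuousAt g z0 := (hg z0 hz0).continuousAt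
  have hcf : ContinuousAt f z0 := (hf.holo z0 hz0).continuousAt
  have hcgj : ContinuousAt (fun z => g z j) z0 := by
    have : Continuous fun v : CSp N => v j := by fun_prop
    exact this.continuousAt.comp hcg
  have hcfj : ContinuousAt (fun z => f z j) z0 := by
    have : Continuous fun v : CSp N => v j := by fun_prop
    exact this.continuousAt.comp hcf
  have hU : {z : CSp n | ev q z = 0} ∈ 𝓝 z0 := by
    have h1 : ∀ᶠ z in 𝓝 z0, g z j ≠ f z j := by
      have h10 : ContinuousAt (fun z => g z j - f z j) z0 := hcgj.sub hcfj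
      filter_upwards [h10.eventually_ne (sub_ne_zero.2 hj')] with z hz
      exact sub_ne_zero.1 hz
    have h2 : ∀ᶠ z in 𝓝 z0, z ∈ ball (0 : CSp n) 1 := isOpen_ball.mem_nhds hz0
    filter_upwards [h1, h2] with z hz1 hz2
    have := hqg z hz2 j
    rcases eq_or_ne (ev q z) 0 with h | h
    · exact h
    · exact absurd (mul_left_cancel₀ h this) hz1
  apply hq0
  have hV : {x : Fin n → ℂ | MvPolynomial.eval x q = 0} ∈ 𝓝 (fun i => z0 i : Fin n → ℂ) := by
    have hc : Continuous fun x : Fin n → ℂ => (WithLp.toLp 2 x : CSp n) := by fun_prop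
    have := hc.continuousAt (x := (fun i => z0 i : Fin n → ℂ))
    have h3 := this.preimage_mem_nhds (t := {z : CSp n | ev q z = 0}) (by simpa using hU)
    filter_upwards [h3] with x hx
    simpa [ev] using hx
  obtain ⟨ε, hε, hball⟩ := Metric.mem_nhds_iff.1 hV
  refine MvPolynomial.funext_set (fun i => ball (z0 i) ε) (fun i => ?_) fun x hx => ?_
  · exact infinite_of_mem_nhds (z0 i) (ball_mem_nhds _ hε)
  · rw [map_zero]
    apply hball
    rw [ball_pi _ hε]
    exact hx

/-- If all proper rational maps have degree at most `d`, they are determined by their `d`-jets. -/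
theorem determined_of_degree {d : ℕ}
    (h : ∀ f : CSp n → CSp N, IsProper f → IsRational f → DegreeLE f d) : Determined n N d := by
  intro f g hf hfr hg _ hj
  exact eqOn_of_degreeLE hf (h f hf hfr) hg.holo
    (fun z hz => by have := hg.maps z hz; simp at this; exact this.le) hj

end Helper38.Ball
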